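import Pool.Agent.Lib.H97B.B3

/-! # H97B, existence of faces -/

open Finset Relation

set_option linter.unusedSectionVars false
set_option linter.unusedVariables false

namespace H97B

variable {α : Type} [LinearOrder α] [Fintype α] {cr : α → α → α → Prop} {bef : α → α → α → α → Prop}

/-- candidates for the hub set of the face behind the chord `u v` -/
structure CH (cr : α → α → α → Prop) (u v : α) (H : Finset α) : Prop where
  hu : u ∈ H
  hv : v ∈ H
  ins : ∀ x ∈ H, u ≤ x ∧ x ≤ v
  c3 : 3 ≤ H.card
  side : ∀ p ∈ H, ∀ q ∈ H, p < q → (∀ k ∈ H, ¬ (p < k ∧ k < q)) →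
    H38P.RF cr p q ∨ H38P.Io p q = ∅

theorem exists_CH {u v : α} (huv : u < v) (hne : (H38P.Io u v).Nonempty) :
    CH cr u v (univ.filter (fun x => u ≤ x ∧ x ≤ v)) where
  hu := by simp [huv.le]
  hv := by simp [huv.le]
  ins := by simp
  c3 := by
    obtain ⟨w, hw⟩ := hne
    unfold H38P.Io at hw
    simp only [mem_filter, mem_univ, true_and] at hw
    have h1 : ({u, w, v} : Finset α) ⊆ univ.filter (fun x => u ≤ x ∧ x ≤ v) := by
      intro x hx
      simp only [mem_insert, mem_singleton] at hx
      rcases hx with rfl | rfl | rfl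
      · simp [huv.le]
      · simp [hw.1.le, hw.2.le]
      · simp [huv.le]
    have h2 : ({u, w, v} : Finset α).card = 3 := by
      rw [Finset.card_eq_three]
      exact ⟨u, w, v, hw.1.ne, huv.ne, hw.2.ne, rfl⟩
    rw [← h2]
    exact Finset.card_le_card h1
  side := by
    intro p hp q hq hpq h1
    right
    rw [Finset.eq_empty_iff_forall_notMem]
    intro k hk
    unfold H38P.Io at hk
    simp only [mem_filter, mem_univ, true_and] at hk hp hq
    exact h1 k (by simp [(hp.1.trans hk.1.le), (hk.2.le.trans hq.2)]) hk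

/-- a hub set of minimal size has no inner ray-free chord -/
theorem exists_min {u v : α} (huv : u < v) (hne : (H38P.Io u v).Nonempty) :
    ∃ H : Finset α, CH cr u v H ∧ ∀ p ∈ H, ∀ q ∈ H, p < q → H38P.RF cr p q →
      (p ≠ u ∨ q ≠ v) → ∀ k ∈ H, ¬ (p < k ∧ k < q) := by
  classical
  have hex : ∃ n, ∃ H : Finset α, CH cr u v H ∧ H.card = n := ⟨_, _, exists_CH huv hne, rfl⟩
  obtain ⟨H, hH, hHn⟩ := Nat.find_spec hex
  have hmin := fun (H' : Finset α) (h1 : CH cr u v H') => Nat.find_min' hex ⟨H', h1, rfl⟩
  refine ⟨H, hH, ?_⟩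
  intro p hp q hq hpq hrf huv2 k hk hkpq
  set H' := H.filter (fun x => ¬ (p < x ∧ x < q)) with hH'
  have hmem : ∀ x, x ∈ H' ↔ x ∈ H ∧ ¬ (p < x ∧ x < q) := fun x => by rw [hH', mem_filter]
  have hp' : p ∈ H' := (hmem p).2 ⟨hp, fun h1 => lt_irrefl _ h1.1⟩
  have hq' : q ∈ H' := (hmem q).2 ⟨hq, fun h1 => lt_irrefl _ h1.2⟩
  have hu' : u ∈ H' := (hmem u).2 ⟨hH.hu, fun h1 => not_lt.2 (hH.ins p hp).1 h1.1⟩
  have hv' : v ∈ H' := (hmem v).2 ⟨hH.hv, fun h1 => not_lt.2 (hH.ins q hq).2 h1.2⟩
  have hC : CH cr u v H' := by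
    refine ⟨hu', hv', fun x hx => hH.ins x ((hmem x).1 hx).1, ?_, ?_⟩
    · rcases huv2 with h1 | h1
      · have h2 : ({u, p, q} : Finset α) ⊆ H' := by
          intro x hx
          simp only [mem_insert, mem_singleton] at hx
          rcases hx with rfl | rfl | rfl
          · exact hu'
          · exact hp'
          · exact hq'
        have hup : u < p := lt_of_le_of_ne (hH.ins p hp).1 (Ne.symm h1)
        have h3 : ({u, p, q} : Finset α).card = 3 := by
          rw [Finset.card_eq_three]
          exact ⟨u, p, q, hup.ne, (hup.trans hpq).ne, hpq.ne, rfl⟩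
        rw [← h3]
        exact Finset.card_le_card h2
      · have h2 : ({p, q, v} : Finset α) ⊆ H' := by
          intro x hx
          simp only [mem_insert, mem_singleton] at hx
          rcases hx with rfl | rfl | rfl
          · exact hp'
          · exact hq'
          · exact hv'
        have hqv : q < v := lt_of_le_of_ne (hH.ins q hq).2 h1
        have h3 : ({p, q, v} : Finset α).card = 3 := by
          rw [Finset.card_eq_three]
          exact ⟨p, q, v, hpq.ne, (hpq.trans hqv).ne, hqv.ne, rfl⟩
        rw [← h3]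
        exact Finset.card_le_card h2
    · intro a ha b hb hab h1
      by_cases hpqab : a = p ∧ b = q
      · left
        rw [hpqab.1, hpqab.2]
        exact hrf
      refine hH.side a ((hmem a).1 ha).1 b ((hmem b).1 hb).1 hab ?_
      intro x hx hxab
      by_cases hx' : p < x ∧ x < q
      · apply hpqab
        have ha2 : ¬ (p < a ∧ a < q) := ((hmem a).1 ha).2
        have hb2 : ¬ (p < b ∧ b < q) := ((hmem b).1 hb).2
        have h3 : a ≤ p := by
          by_contra h4
          exact ha2 ⟨not_le.1 h4, hxab.1.trans hx'.2⟩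
        have h4 : q ≤ b := by
          by_contra h5
          exact hb2 ⟨hx'.1.trans hxab.2, not_le.1 h5⟩
        constructor
        · by_contra h5
          exact h1 p hp' ⟨lt_of_le_of_ne h3 h5, hx'.1.trans hxab.2⟩
        · by_contra h5
          exact h1 q hq' ⟨hxab.1.trans hx'.2, lt_of_le_of_ne h4 (Ne.symm h5)⟩
      · exact h1 x ((hmem x).2 ⟨hx, hx'⟩) hxab
  have h5 := hmin H' hC
  have h6 : H'.card < H.card := by
    apply Finset.card_lt_card
    rw [Finset.ssubset_iff_of_subset (by rw [hH']; exact filter_subset _ _)]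
    exact ⟨k, hk, fun h1 => ((hmem k).1 h1).2 hkpq⟩
  rw [hHn] at h6
  omega

/-- an edge crossing a ray behind a ray-free chord crosses one of its end rays -/
theorem Ray.core (h : Ray cr bef) {g g' p q z : α} (hgg : g ≠ g') (hrf : H38P.RF cr g g')
    (hzg : z ≠ g) (hzg' : z ≠ g') (hp : p = g ∨ p = g' ∨ Alt g g' p z)
    (hq : q = g ∨ q = g' ∨ Alt g g' q z) (hc : cr p q z) : cr p q g ∨ cr p q g' := by
  have hrf' : H38P.RF cr g' g := fun t ht => hrf t (h.symm ht)
  have hpq := h.nxy hc
  by_cases e1 : p = g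
  · subst e1
    by_cases e2 : q = g'
    · subst e2
      exact absurd hc (hrf z)
    · have h1 : Alt p g' q z := by
        rcases hq with h2 | h2 | h2
        · exact absurd h2.symm hpq
        · exact absurd h2 e2
        · exact h2
      exact Or.inr (h.par1 hrf hgg hpq.symm e2 hzg hzg' h1 hc)
  by_cases e2 : p = g'
  · subst e2
    by_cases e3 : q = g
    · subst e3
      exact absurd hc (hrf' z)
    · have h1 : Alt g p q z := by
        rcases hq with h2 | h2 | h2
        · exact absurd h2 e3
        · exact absurd h2.symm hpq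
        · exact h2
      exact Or.inl (h.par1 hrf' hgg.symm hpq.symm e3 hzg' hzg (alt_comm1.1 h1) hc)
  have hp1 : Alt g g' p z := by
    rcases hp with h2 | h2 | h2
    · exact absurd h2 e1
    · exact absurd h2 e2
    · exact h2
  by_cases e3 : q = g
  · subst e3
    exact Or.inr (h.symm (h.par1 hrf hgg e1 e2 hzg hzg' hp1 (h.symm hc)))
  by_cases e4 : q = g'
  · subst e4
    exact Or.inl (h.symm (h.par1 hrf' hgg.symm e2 e1 hzg' hzg (alt_comm1.1 hp1) (h.symm hc)))
  have hq1 : Alt g g' q z := by
    rcases hq with h2 | h2 | h2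
    · exact absurd h2 e3
    · exact absurd h2 e4
    · exact h2
  exact h.par hrf hgg e1 e2 e3 e4 hzg hzg' hpq hp1 hq1 hc

theorem alt_in_out {g g' x z : α} (hg : g < g') (hx : g < x ∧ x < g')
    (hz : z < g ∨ g' < z) : Alt g g' x z := by
  intro h1
  have h2 : Btw g g' z := h1.1 (Or.inl hx)
  rcases h2 with h3 | h3
  · rcases hz with h4 | h4
    · exact lt_irrefl _ (h3.1.trans h4)
    · exact lt_irrefl _ (h3.2.trans h4)
  · exact lt_irrefl _ ((h3.1.trans h3.2).trans hg)

/-- the face hub set -/
theorem Ray.fh (h : Ray cr bef) {u v : α} (huv : u < v) (hrf : H38P.RF cr u v) {H : Finset α}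
    (hC : CH cr u v H) (hmin : ∀ p ∈ H, ∀ q ∈ H, p < q → H38P.RF cr p q →
      (p ≠ u ∨ q ≠ v) → ∀ k ∈ H, ¬ (p < k ∧ k < q)) : FH cr H := by
  have hrfH : ∀ p ∈ H, ∀ q ∈ H, p ≠ q → (∀ s ∈ H, ¬ cr p q s) → H38P.RF cr p q := by
    intro p hp q hq hpq hs z hc
    have hz : z ∉ H := fun h1 => hs z h1 hc
    by_cases h1 : u < z ∧ z < v
    · -- the window of z
      obtain ⟨g, hg, hgmax⟩ := Finset.exists_max_image (H.filter (fun x => x < z)) id
        ⟨u, by simp [hC.hu, h1.1]⟩
      obtain ⟨g', hg', hgmin⟩ := Finset.exists_min_image (H.filter (fun x => z < x)) id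
        ⟨v, by simp [hC.hv, h1.2]⟩
      rw [mem_filter] at hg hg'
      have hgg : g < g' := hg.2.trans hg'.2
      have hcons : ∀ k ∈ H, ¬ (g < k ∧ k < g') := by
        intro k hk hkg
        rcases lt_trichotomy k z with h2 | h2 | h2
        · have := hgmax k (by simp [hk, h2])
          exact not_lt.2 this hkg.1
        · exact hz (h2 ▸ hk)
        · have := hgmin k (by simp [hk, h2])
          exact not_lt.2 this hkg.2
      have hR : H38P.RF cr g g' := by
        rcases hC.side g hg.1 g' hg'.1 hgg hcons with h2 | h2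
        · exact h2
        · exfalso
          have h3 : z ∈ H38P.Io g g' := by
            unfold H38P.Io
            simp [hg.2, hg'.2]
          rw [h2] at h3
          exact absurd h3 (Finset.notMem_empty z)
      have key : ∀ x ∈ H, x = g ∨ x = g' ∨ Alt g g' x z := by
        intro x hx
        rcases lt_trichotomy x g with h2 | h2 | h2
        · exact Or.inr (Or.inr (alt_comm2.1 (alt_in_out hgg ⟨hg.2, hg'.2⟩ (Or.inl h2))))
        · exact Or.inl h2
        · rcases lt_trichotomy x g' with h3 | h3 | h3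
          · exact absurd ⟨h2, h3⟩ (hcons x hx)
          · exact Or.inr (Or.inl h3)
          · exact Or.inr (Or.inr (alt_comm2.1 (alt_in_out hgg ⟨hg.2, hg'.2⟩ (Or.inr h3))))
      rcases h.core hgg.ne hR hg.2.ne' hg'.2.ne (key p hp) (key q hq) hc with h2 | h2
      · exact hs g hg.1 h2
      · exact hs g' hg'.1 h2
    · have hzu : z ≠ u := fun e => hz (e ▸ hC.hu)
      have hzv : z ≠ v := fun e => hz (e ▸ hC.hv)
      have hzo : z < u ∨ v < z := by
        by_contra h2
        push Not at h2
        exact h1 ⟨lt_of_le_of_ne h2.1 hzu.symm, lt_of_le_of_ne h2.2 hzv⟩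
      have key : ∀ x ∈ H, x = u ∨ x = v ∨ Alt u v x z := by
        intro x hx
        by_cases e1 : x = u
        · exact Or.inl e1
        by_cases e2 : x = v
        · exact Or.inr (Or.inl e2)
        exact Or.inr (Or.inr (alt_in_out huv ⟨lt_of_le_of_ne (hC.ins x hx).1 (Ne.symm e1),
          lt_of_le_of_ne (hC.ins x hx).2 e2⟩ hzo))
      rcases h.core huv.ne hrf hzu hzv (key p hp) (key q hq) hc with h2 | h2
      · exact hs u hC.hu h2
      · exact hs v hC.hv h2
  refine ⟨?_, hrfH⟩
  have main : ∀ a b, G cr H a b → a < b → Con H a b := by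
    intro a b hab hlt
    have h1 : H38P.RF cr a b := hrfH a hab.1 b hab.2.1 hab.2.2.1 hab.2.2.2
    by_cases h2 : a ≠ u ∨ b ≠ v
    · have h3 := hmin a hab.1 b hab.2.1 hlt h1 h2
      intro k hk l hl hka hkb hla hlb h4
      apply h4
      constructor
      · intro h5
        rcases h5 with h6 | h6
        · exact absurd h6 (h3 k hk)
        · exact absurd (h6.1.trans h6.2) (not_lt.2 hlt.le)
      · intro h5
        rcases h5 with h6 | h6
        · exact absurd h6 (h3 l hl)
        · exact absurd (h6.1.trans h6.2) (not_lt.2 hlt.le)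
    · push Not at h2
      obtain ⟨rfl, rfl⟩ := h2
      intro k hk l hl hka hkb hla hlb h4
      apply h4
      have hb : ∀ x ∈ H, x ≠ a → x ≠ b → Btw a b x := by
        intro x hx e1 e2
        exact Or.inl ⟨lt_of_le_of_ne (hC.ins x hx).1 (Ne.symm e1),
          lt_of_le_of_ne (hC.ins x hx).2 e2⟩
      exact ⟨fun _ => hb l hl hla hlb, fun _ => hb k hk hka hkb⟩
  intro a b hab
  rcases lt_or_gt_of_ne hab.2.2.1 with h1 | h1
  · exact main a b hab h1
  · have h2 := main b a (h.G_symm hab) h1
    intro k hk l hl hka hkb hla hlb h4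
    exact h2 k hk l hl hkb hka hlb hla (alt_comm1.1 h4)

/-- every nonempty window has a face -/
theorem Ray.faces (h : Ray cr bef) : H38P.Faces cr := by
  intro u v huv hrf hne
  obtain ⟨H, hC, hmin⟩ := exists_min (cr := cr) huv hne
  have hFH := h.fh huv hrf hC hmin
  have hone : ∀ p ∈ H, ∀ q ∈ H, p ≠ q → OneS cr H p q := fun p hp q hq hpq => h.oneS hFH hp hq hpq
  set e : Fin H.card ↪o α := H.orderEmbOfFin rfl with he
  have c3 := hC.c3
  have emem : ∀ i, e i ∈ H := fun i => Finset.orderEmbOfFin_mem H rfl i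
  have esurj : ∀ x ∈ H, ∃ i, e i = x := by
    intro x hx
    have h1 : x ∈ Set.range (H.orderEmbOfFin rfl) := by
      rw [Finset.range_orderEmbOfFin]
      exact hx
    obtain ⟨i, hi⟩ := h1
    exact ⟨i, hi⟩
  set hh : ℕ → α := fun i => if hi : i < H.card then e ⟨i, hi⟩ else v with hhd
  have hval : ∀ i (hi : i < H.card), hh i = e ⟨i, hi⟩ := by
    intro i hi
    rw [hhd]
    simp only [hi, dite_true]
  have hmem : ∀ i, i < H.card → hh i ∈ H := by
    intro i hi
    rw [hval i hi]
    exact emem _
  have hmono : ∀ i j, i < j → j < H.card → hh i < hh j := by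
    intro i j hij hj
    rw [hval i (hij.trans hj), hval j hj]
    exact e.strictMono hij
  refine ⟨H.card - 1, hh, ?_, ?_, ?_, ?_, ?_, ?_, ?_⟩
  · omega
  · -- first
    obtain ⟨i, hi⟩ := esurj u hC.hu
    have h1 : hh 0 ≤ e i := by
      rw [hval 0 (by omega)]
      exact e.monotone (Fin.mk_le_of_le_val (Nat.zero_le _))
    rw [hi] at h1
    exact le_antisymm h1 (hC.ins _ (hmem 0 (by omega))).1
  · obtain ⟨i, hi⟩ := esurj v hC.hv
    have h1 : e i ≤ hh (H.card - 1) := by
      rw [hval (H.card - 1) (by omega)]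
      refine e.monotone ?_
      rw [Fin.le_def]
      have := i.2
      simp only
      omega
    rw [hi] at h1
    exact le_antisymm (hC.ins _ (hmem _ (by omega))).2 h1
  · intro i j hij hj
    exact hmono i j hij (by omega)
  · intro j hj
    apply hC.side _ (hmem j (by omega)) _ (hmem (j + 1) (by omega)) (hmono j (j + 1) (by omega)
      (by omega))
    intro k hk hkj
    obtain ⟨i, rfl⟩ := esurj k hk
    rw [hval j (by omega), hval (j + 1) (by omega)] at hkj
    have h1 := e.strictMono.lt_iff_lt.1 hkj.1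
    have h2 := e.strictMono.lt_iff_lt.1 hkj.2
    rw [Fin.lt_def] at h1 h2
    simp only at h1 h2
    omega
  · intro i j k s t hij hjk hks hst ht x hx y hy hxs hxt hxi hxk
    have lt := fun a b (h1 : a < b) (h2 : b < H.card) => hmono a b h1 h2
    unfold H38P.Io at hx hy
    simp only [mem_filter, mem_univ, true_and] at hx hy
    rcases lt_or_gt_of_ne (h.nxy hxi) with h1 | h1
    · rcases h.loopL (H := H) (l0 := hh i) (l1 := hh j) (l2 := hh k) (s := hh s) (x := x)
        (X := y) (t := hh t) hone (hmem i (by omega)) (hmem j (by omega)) (hmem k (by omega))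
        (hmem s (by omega)) (hmem t (by omega)) (lt i j hij (by omega)) (lt j k hjk (by omega))
        (lt k s hks (by omega)) hx.1 h1 hy.2 hxi hxk with h2 | h2 | h2
      · exact h2
      · exact absurd h2 hxs
      · exact absurd h2 hxt
    · rcases h.loopL (H := H) (l0 := hh i) (l1 := hh j) (l2 := hh k) (s := hh s) (x := y)
        (X := x) (t := hh t) hone (hmem i (by omega)) (hmem j (by omega)) (hmem k (by omega))
        (hmem s (by omega)) (hmem t (by omega)) (lt i j hij (by omega)) (lt j k hjk (by omega))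
        (lt k s hks (by omega)) hy.1 h1 hx.2 (h.symm hxi) (h.symm hxk) with h2 | h2 | h2
      · exact h.symm h2
      · exact absurd (h.symm h2) hxs
      · exact absurd (h.symm h2) hxt
  · intro i j k s t hst hti hij hjk hk x hx y hy hxs hxt hxi hxk
    have lt := fun a b (h1 : a < b) (h2 : b < H.card) => hmono a b h1 h2
    unfold H38P.Io at hx hy
    simp only [mem_filter, mem_univ, true_and] at hx hy
    rcases lt_or_gt_of_ne (h.nxy hxi) with h1 | h1
    · rcases h.loopR (H := H) (l0 := hh i) (l1 := hh j) (l2 := hh k) (s := hh s) (x := x)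
        (X := y) (t := hh t) hone (hmem i (by omega)) (hmem j (by omega)) (hmem k (by omega))
        (hmem s (by omega)) (hmem t (by omega)) hx.1 h1 hy.2 (lt t i hti (by omega))
        (lt i j hij (by omega)) (lt j k hjk (by omega)) hxi hxk with h2 | h2 | h2
      · exact h2
      · exact absurd h2 hxs
      · exact absurd h2 hxt
    · rcases h.loopR (H := H) (l0 := hh i) (l1 := hh j) (l2 := hh k) (s := hh s) (x := y)
        (X := x) (t := hh t) hone (hmem i (by omega)) (hmem j (by omega)) (hmem k (by omega))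
        (hmem s (by omega)) (hmem t (by omega)) hy.1 h1 hx.2 (lt t i hti (by omega))
        (lt i j hij (by omega)) (lt j k hjk (by omega)) (h.symm hxi) (h.symm hxk) with h2 | h2 | h2
      · exact h.symm h2
      · exact absurd (h.symm h2) hxs
      · exact absurd (h.symm h2) hxt

end H97B
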