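import Pool.Agent.Lib.H38P.Defs

/-! # H97B (module B of H63P): faces from rays. Definitions

`α`: the vertices different from the pole, linearly ordered by the rotation at the pole (cut at one
place).  `cr x y z`: the edge `x y` crosses the ray `z`.  The fields of `Ray` are the finite facts
F1, F3 - F8 of Lib/H63P/PROOF.md. -/

open Finset

namespace H97B

variable {α : Type} [LinearOrder α] [Fintype α]

/-- `c` is strictly between `a` and `b` -/
def Btw (a b c : α) : Prop := (a < c ∧ c < b) ∨ (b < c ∧ c < a)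

/-- `c` and `d` are on different sides of `{a, b}` in the cyclic order -/
def Alt (a b c d : α) : Prop := ¬ (Btw a b c ↔ Btw a b d)

/-- `pq` is one-sided with respect to the hubs in `H` -/
def OneS (cr : α → α → α → Prop) (H : Finset α) (p q : α) : Prop :=
  ((∀ h ∈ H, Btw p q h → cr p q h) ∧ (∀ z, z ≠ p → z ≠ q → ¬ Btw p q z → ¬ cr p q z)) ∨
  ((∀ h ∈ H, h ≠ p → h ≠ q → ¬ Btw p q h → cr p q h) ∧ (∀ z, Btw p q z → ¬ cr p q z))

/-- `w` is not before `z` on `x y` -/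
def Good (cr : α → α → α → Prop) (bef : α → α → α → α → Prop) (x y z w : α) : Prop :=
  cr x y w → w = z ∨ ¬ bef x y w z

/-- the finite facts of module B -/
structure Ray (cr : α → α → α → Prop) (bef : α → α → α → α → Prop) : Prop where
  symm : ∀ {x y z}, cr x y z → cr y x z
  nez : ∀ {x y z}, cr x y z → z ≠ x
  nxy : ∀ {x y z}, cr x y z → x ≠ y
  /-- (F1) -/
  k4 : ∀ {x y z}, cr x y z → ¬ cr z y x
  /-- (F4) -/
  tot : ∀ {x y w z}, cr x y w → cr x y z → w ≠ z → bef x y w z ∨ bef x y z w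
  asymm : ∀ {x y w z}, cr x y w → cr x y z → w ≠ z → bef x y w z → ¬ bef x y z w
  trans : ∀ {x y u w z}, cr x y u → cr x y w → cr x y z → u ≠ w → w ≠ z → u ≠ z →
    bef x y u w → bef x y w z → bef x y u z
  /-- (F3) (i), (ii) -/
  par : ∀ {u v x y z}, H38P.RF cr u v → u ≠ v → x ≠ u → x ≠ v → y ≠ u → y ≠ v → z ≠ u → z ≠ v →
    x ≠ y → Alt u v x z → Alt u v y z → cr x y z → cr x y u ∨ cr x y v
  /-- (F3) (iii), (iv) -/
  par1 : ∀ {u v y z}, H38P.RF cr u v → u ≠ v → y ≠ u → y ≠ v → z ≠ u → z ≠ v →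
    Alt u v y z → cr u y z → cr u y v
  /-- (F5a) -/
  fa : ∀ {x y z p}, cr x y z → cr x z p → p ≠ y → Good cr bef x y z p → ¬ cr x p y ∧ ¬ cr z p y
  /-- (F5b) -/
  fb1 : ∀ {x y z p s}, cr x y z → cr x z p → p ≠ y → Good cr bef x y z p → Good cr bef x y z s →
    s ≠ y → cr x p s → cr x z s
  /-- (F5b) -/
  fb2 : ∀ {x y z p s}, cr x y z → cr x z p → p ≠ y → Good cr bef x y z p → Good cr bef x y z s →
    s ≠ y → s ≠ x → cr z p s → cr x z s
  /-- (F5c) -/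
  fc : ∀ {x y z p q s}, cr x y z → cr x z p → cr x z q → p ≠ q → Good cr bef x y z p →
    Good cr bef x y z q → Good cr bef x y z s → s ≠ x → s ≠ z → cr p q s → ¬ cr x z s →
    cr p q x ∨ cr p q z
  /-- (F6) -/
  sector : ∀ {x y z t}, cr x y z → cr x z t → Good cr bef x y z t → t ≠ y → ¬ Alt x z t y
  /-- (F7) ONE1 -/
  one1 : ∀ {p q z y}, Alt p q z y → y ≠ p → y ≠ q → cr p q z → cr p q y → cr p z y ∨ cr z q y
  /-- (F7) ONE2 -/
  one2 : ∀ {p q z y}, Alt p y z q → y ≠ p → y ≠ q → y ≠ z → cr p q z → ¬ cr p z y → cr z q y →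
    cr p q y
  /-- (F8) LOOP -/
  loopL : ∀ {H : Finset α} {l0 l1 l2 s x X t}, (∀ p ∈ H, ∀ q ∈ H, p ≠ q → OneS cr H p q) →
    l0 ∈ H → l1 ∈ H → l2 ∈ H → s ∈ H → t ∈ H → l0 < l1 → l1 < l2 → l2 < s → s < x → x < X →
    X < t → cr x X l0 → cr x X l2 → cr x X l1 ∨ cr x X s ∨ cr x X t
  /-- (F8) LOOP -/
  loopR : ∀ {H : Finset α} {l0 l1 l2 s x X t}, (∀ p ∈ H, ∀ q ∈ H, p ≠ q → OneS cr H p q) →
    l0 ∈ H → l1 ∈ H → l2 ∈ H → s ∈ H → t ∈ H → s < x → x < X → X < t → t < l0 → l0 < l1 →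
    l1 < l2 → cr x X l0 → cr x X l2 → cr x X l1 ∨ cr x X s ∨ cr x X t

/-- the ray-free pairs of `S` (with respect to the rays of `S`) -/
def G (cr : α → α → α → Prop) (S : Finset α) (p q : α) : Prop :=
  p ∈ S ∧ q ∈ S ∧ p ≠ q ∧ ∀ s ∈ S, ¬ cr p q s

end H97B
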