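import Pool.Agent.Lib.H97B.B0

/-! # H97B, D1: the graph of ray-free pairs is connected -/

open Finset Relation

set_option linter.unusedSectionVars false
set_option linter.unusedVariables false

namespace H97B

variable {α : Type} [LinearOrder α] [Fintype α] {cr : α → α → α → Prop} {bef : α → α → α → α → Prop}

theorem rtg_mono {β : Type} {r p : β → β → Prop} (hrp : ∀ a b, r a b → p a b) {x y : β}
    (hr : ReflTransGen r x y) : ReflTransGen p x y := by
  induction hr with
  | refl => exact ReflTransGen.refl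
  | tail _ h1 ih => exact ih.tail (hrp _ _ h1)

theorem rtg_symm {β : Type} {r : β → β → Prop} (hs : ∀ a b, r a b → r b a) {x y : β}
    (hr : ReflTransGen r x y) : ReflTransGen r y x := by
  induction hr with
  | refl => exact ReflTransGen.refl
  | tail _ h1 ih => exact (ReflTransGen.single (hs _ _ h1)).trans ih

theorem Ray.nez' (h : Ray cr bef) {x y z : α} (hc : cr x y z) : z ≠ y := h.nez (h.symm hc)

/-- the first element -/
theorem Ray.first (h : Ray cr bef) {x y : α} (A : Finset α) (hA : A.Nonempty)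
    (hc : ∀ w ∈ A, cr x y w) : ∃ z ∈ A, ∀ w ∈ A, w = z ∨ ¬ bef x y w z := by
  induction hA using Finset.Nonempty.cons_induction with
  | singleton a => exact ⟨a, by simp, fun w hw => Or.inl (by simpa using hw)⟩
  | cons a s ha hs ih =>
    obtain ⟨z, hz, hz1⟩ := ih (fun w hw => hc w (Finset.mem_cons_of_mem hw))
    have haz : a ≠ z := fun e => ha (e ▸ hz)
    have ca := hc a (Finset.mem_cons_self a s)
    have cz := hc z (Finset.mem_cons_of_mem hz)
    by_cases hb : bef x y a z
    · refine ⟨a, Finset.mem_cons_self a s, fun w hw => ?_⟩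
      rcases Finset.mem_cons.1 hw with rfl | hw
      · exact Or.inl rfl
      · right
        intro hb2
        have cw := hc w (Finset.mem_cons_of_mem hw)
        have hwa : w ≠ a := fun e => ha (e ▸ hw)
        rcases hz1 w hw with rfl | h1
        · exact h.asymm ca cz haz hb hb2
        · by_cases hwz : w = z
          · subst hwz
            exact h.asymm ca cz haz hb hb2
          · exact h1 (h.trans cw ca cz hwa haz hwz hb2 hb)
    · refine ⟨z, Finset.mem_cons_of_mem hz, fun w hw => ?_⟩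
      rcases Finset.mem_cons.1 hw with rfl | hw
      · exact Or.inr hb
      · exact hz1 w hw

theorem Ray.G_symm (h : Ray cr bef) {S : Finset α} {p q : α} (hp : G cr S p q) : G cr S q p :=
  ⟨hp.2.1, hp.1, hp.2.2.1.symm, fun s hs hc => hp.2.2.2 s hs (h.symm hc)⟩

open Classical in
/-- the set `V'` of D1 (A) -/
noncomputable def VV (cr : α → α → α → Prop) (S : Finset α) (x z : α) : Finset α :=
  insert x (insert z (S.filter (fun w => cr x z w)))

theorem mem_VV {S : Finset α} {x z w : α} :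
    w ∈ VV cr S x z ↔ w = x ∨ w = z ∨ (w ∈ S ∧ cr x z w) := by
  unfold VV
  simp only [mem_insert, mem_filter]

theorem Ray.notin_VV (h : Ray cr bef) {S : Finset α} {x y z : α} (hc : cr x y z) :
    y ∉ VV cr S x z := by
  rw [mem_VV]
  rintro (h1 | h1 | h1)
  · exact h.nxy hc h1.symm
  · exact h.nez' hc h1.symm
  · exact h.k4 (h.symm hc) (h.symm h1.2)

/-- D1 (A) -/
theorem Ray.d1A (h : Ray cr bef) (S : Finset α)
    (IH : ∀ S' : Finset α, S'.card < S.card → ∀ p ∈ S', ∀ q ∈ S', ReflTransGen (G cr S') p q)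
    {x y z : α} (hx : x ∈ S) (hy : y ∈ S) (hz : z ∈ S) (hc : cr x y z)
    (hg : ∀ w ∈ S, Good cr bef x y z w) :
    ReflTransGen (fun p q => p ∈ VV cr S x z ∧ q ∈ VV cr S x z ∧ G cr S p q) x z := by
  have hyV := h.notin_VV (S := S) hc
  have hVS : VV cr S x z ⊆ S := by
    intro w hw
    rcases mem_VV.1 hw with rfl | rfl | h1
    · exact hx
    · exact hz
    · exact h1.1
  have hcard : (VV cr S x z).card < S.card := by
    apply Finset.card_lt_card
    refine ⟨hVS, fun h1 => hyV (h1 hy)⟩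
  have hxV : x ∈ VV cr S x z := mem_VV.2 (Or.inl rfl)
  have hzV : z ∈ VV cr S x z := mem_VV.2 (Or.inr (Or.inl rfl))
  refine rtg_mono ?_ (IH _ hcard x hxV z hzV)
  intro p q hpq
  refine ⟨hpq.1, hpq.2.1, hVS hpq.1, hVS hpq.2.1, hpq.2.2.1, ?_⟩
  intro s hs hcs
  have hsV : s ∉ VV cr S x z := fun h1 => hpq.2.2.2 s h1 hcs
  have hsx : s ≠ x := fun e => hsV (e ▸ hxV)
  have hsz : s ≠ z := fun e => hsV (e ▸ hzV)
  have hns : ¬ cr x z s := fun h1 => hsV (mem_VV.2 (Or.inr (Or.inr ⟨hs, h1⟩)))
  have hyne : ∀ q, cr x z q → q ≠ y := fun q hq e => h.k4 (h.symm hc) (h.symm (e ▸ hq))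
  have a1 : ∀ q ∈ S, cr x z q → ¬ cr x q s := by
    intro q hq h1 h2
    by_cases hsy : s = y
    · subst hsy
      exact (h.fa hc h1 (hyne q h1) (hg q hq)).1 h2
    · exact hns (h.fb1 hc h1 (hyne q h1) (hg q hq) (hg s hs) hsy h2)
  have a2 : ∀ q ∈ S, cr x z q → ¬ cr z q s := by
    intro q hq h1 h2
    by_cases hsy : s = y
    · subst hsy
      exact (h.fa hc h1 (hyne q h1) (hg q hq)).2 h2
    · exact hns (h.fb2 hc h1 (hyne q h1) (hg q hq) (hg s hs) hsy hsx h2)
  rcases mem_VV.1 hpq.1 with rfl | rfl | hp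
  · rcases mem_VV.1 hpq.2.1 with e | rfl | hq
    · exact hpq.2.2.1 e.symm
    · exact hns hcs
    · exact a1 q hq.1 hq.2 hcs
  · rcases mem_VV.1 hpq.2.1 with rfl | e | hq
    · exact hns (h.symm hcs)
    · exact hpq.2.2.1 e.symm
    · exact a2 q hq.1 hq.2 hcs
  · rcases mem_VV.1 hpq.2.1 with rfl | rfl | hq
    · exact a1 p hp.1 hp.2 (h.symm hcs)
    · exact a2 p hp.1 hp.2 (h.symm hcs)
    · rcases h.fc hc hp.2 hq.2 hpq.2.2.1 (hg p hp.1) (hg q hq.1) (hg s hs) hsx hsz hcs hns with
        h1 | h1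
      · exact hpq.2.2.2 x hxV h1
      · exact hpq.2.2.2 z hzV h1

open Classical in
theorem Ray.exists_first (h : Ray cr bef) {S : Finset α} {x y : α} (hn : ∃ s ∈ S, cr x y s) :
    ∃ z ∈ S, cr x y z ∧ ∀ w ∈ S, Good cr bef x y z w := by
  obtain ⟨s, hs, hcs⟩ := hn
  obtain ⟨z, hz, hz1⟩ := h.first (x := x) (y := y) (S.filter (fun w => cr x y w))
    ⟨s, by simp [hs, hcs]⟩ (fun w hw => (mem_filter.1 hw).2)
  refine ⟨z, (mem_filter.1 hz).1, (mem_filter.1 hz).2, fun w hw hc => hz1 w ?_⟩
  simp [hw, hc]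

/-- D1 -/
theorem Ray.d1 (h : Ray cr bef) : ∀ (n : ℕ) (S : Finset α), S.card = n → ∀ p ∈ S, ∀ q ∈ S,
    ReflTransGen (G cr S) p q := by
  classical
  intro n
  induction n using Nat.strong_induction_on with
  | _ n ih =>
    intro S hS y hy x0 hx0
    have IH : ∀ S' : Finset α, S'.card < S.card → ∀ p ∈ S', ∀ q ∈ S',
        ReflTransGen (G cr S') p q := fun S' h1 => ih S'.card (hS ▸ h1) S' rfl
    have hA : ∀ {x y z : α}, x ∈ S → y ∈ S → z ∈ S → cr x y z →
        (∀ w ∈ S, Good cr bef x y z w) → ReflTransGen (G cr S) x z := by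
      intro x y z h1 h2 h3 h4 h5
      exact rtg_mono (fun p q hpq => hpq.2.2) (h.d1A S IH h1 h2 h3 h4 h5)
    by_contra hcon
    have hne : y ≠ x0 := fun e => hcon (e ▸ ReflTransGen.refl)
    -- a second element of the component
    obtain ⟨z, hz, hcz, hgz⟩ := h.exists_first (S := S) (x := y) (y := x0) (by
      by_contra h1
      push Not at h1
      exact hcon (ReflTransGen.single ⟨hy, hx0, hne, h1⟩))
    have hyz := hA hy hx0 hz hcz hgz
    have hzy : z ≠ y := h.nez hcz
    set S' : Finset α := S.filter (fun w => w = y ∨ ¬ ReflTransGen (G cr S) y w) with hS'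
    have hlt : S'.card < S.card := by
      apply Finset.card_lt_card
      refine ⟨filter_subset _ _, fun h1 => ?_⟩
      have h2 := h1 hz
      rw [hS', mem_filter] at h2
      rcases h2.2 with h3 | h3
      · exact hzy h3
      · exact h3 hyz
    have h0 : x0 ∈ S' := by
      rw [hS', mem_filter]
      exact ⟨hx0, Or.inr hcon⟩
    have h1 : y ∈ S' := by
      rw [hS', mem_filter]
      exact ⟨hy, Or.inl rfl⟩
    rcases ReflTransGen.cases_head (IH S' hlt y h1 x0 h0) with h2 | ⟨x, hyx, -⟩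
    · exact hne h2
    · have hxS' := hyx.2.1
      rw [hS', mem_filter] at hxS'
      have hxn : ¬ ReflTransGen (G cr S) y x := by
        rcases hxS'.2 with e | h3
        · exact absurd e.symm hyx.2.2.1
        · exact h3
      obtain ⟨z', hz', hcz', hgz'⟩ := h.exists_first (S := S) (x := x) (y := y) (by
        by_contra h3
        push Not at h3
        exact hxn (ReflTransGen.single ⟨hy, hxS'.1, hyx.2.2.1, fun s hs hc =>
          h3 s hs (h.symm hc)⟩))
      have hxz := hA hxS'.1 hy hz' hcz' hgz'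
      have hz'K : ReflTransGen (G cr S) y z' := by
        by_contra h3
        have h4 : z' ∈ S' := by
          rw [hS', mem_filter]
          exact ⟨hz', Or.inr h3⟩
        exact hyx.2.2.2 z' h4 (h.symm hcz')
      exact hxn (hz'K.trans (rtg_symm (fun p q hpq => h.G_symm hpq) hxz))

theorem Ray.conn (h : Ray cr bef) (S : Finset α) {p q : α} (hp : p ∈ S) (hq : q ∈ S) :
    ReflTransGen (G cr S) p q := h.d1 _ S rfl p hp q hq

/-- D1 (A), final form -/
theorem Ray.connV (h : Ray cr bef) (S : Finset α) {x y z : α} (hx : x ∈ S) (hy : y ∈ S)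
    (hz : z ∈ S) (hc : cr x y z) (hg : ∀ w ∈ S, Good cr bef x y z w) :
    ReflTransGen (fun p q => p ∈ VV cr S x z ∧ q ∈ VV cr S x z ∧ G cr S p q) x z :=
  h.d1A S (fun S' _ p hp q hq => h.conn S' hp hq) hx hy hz hc hg

/-- every vertex has a ray-free edge -/
theorem Ray.exists_rf (h : Ray cr bef) {w v : α} (hwv : w ≠ v) :
    ∃ x, x ≠ w ∧ H38P.RF cr w x := by
  rcases ReflTransGen.cases_head (h.conn univ (mem_univ w) (mem_univ v)) with h2 | ⟨x, hx, -⟩
  · exact absurd h2 hwv
  · exact ⟨x, hx.2.2.1.symm, fun z => hx.2.2.2 z (mem_univ z)⟩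

end H97B
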