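import Pool.Agent.Lib.H97B.B1

/-! # H97B, separation on the circle -/

open Finset Relation

set_option linter.unusedSectionVars false
set_option linter.unusedVariables false

namespace H97B

variable {α : Type} [LinearOrder α]

theorem btw_comm {a b c : α} : Btw a b c ↔ Btw b a c := by
  unfold Btw
  exact or_comm

theorem alt_comm1 {a b c d : α} : Alt a b c d ↔ Alt b a c d := by
  unfold Alt
  rw [btw_comm (a := a) (b := b) (c := c), btw_comm (a := a) (b := b) (c := d)]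

theorem alt_comm2 {a b c d : α} : Alt a b c d ↔ Alt a b d c := by
  unfold Alt
  exact not_congr iff_comm

theorem not_alt_self {a b c : α} : ¬ Alt a b c c := fun h => h Iff.rfl

theorem alt_trans1 {a b c d e : α} (h1 : ¬ Alt a b c d) (h2 : ¬ Alt a b d e) : ¬ Alt a b c e := by
  unfold Alt at *
  rw [not_not] at *
  exact h1.trans h2

theorem alt_trans2 {a b c d e : α} (h1 : Alt a b c d) (h2 : ¬ Alt a b d e) : Alt a b c e := by
  intro h3
  exact h1 (h3.trans (not_not.1 h2).symm)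

theorem alt_trans3 {a b c d e : α} (h1 : Alt a b c d) (h2 : Alt a b d e) : ¬ Alt a b c e := by
  unfold Alt at *
  tauto

theorem btw_iff {a b c : α} (ha : a ≠ c) (hb : b ≠ c) : Btw a b c ↔ ¬ (a < c ↔ b < c) := by
  unfold Btw
  rcases lt_or_gt_of_ne ha with h1 | h1 <;> rcases lt_or_gt_of_ne hb with h2 | h2 <;>
  simp [h1, h2, not_lt.2 h1.le, not_lt.2 h2.le]

theorem lt_flip {a c : α} (h : a ≠ c) : (c < a) ↔ ¬ (a < c) := by
  rcases lt_or_gt_of_ne h with h1 | h1
  · simp [h1, not_lt.2 h1.le]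
  · simp [h1, not_lt.2 h1.le]

theorem alt_swap {a b c d : α} (h1 : a ≠ c) (h2 : a ≠ d) (h3 : b ≠ c) (h4 : b ≠ d) :
    Alt a b c d ↔ Alt c d a b := by
  unfold Alt
  rw [btw_iff h1 h3, btw_iff h2 h4, btw_iff h1.symm h2.symm, btw_iff h3.symm h4.symm,
    lt_flip h1, lt_flip h2, lt_flip h3, lt_flip h4]
  tauto

/-- exactly one of the three pairings of four different points is crossing -/
theorem alt3 {a b c d : α} (h1 : a ≠ b) (h2 : a ≠ c) (h3 : a ≠ d) (h4 : b ≠ c) (h5 : b ≠ d)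
    (h6 : c ≠ d) :
    (Alt a b c d ∧ ¬ Alt a c b d ∧ ¬ Alt a d b c) ∨ (¬ Alt a b c d ∧ Alt a c b d ∧ ¬ Alt a d b c) ∨
    (¬ Alt a b c d ∧ ¬ Alt a c b d ∧ Alt a d b c) := by
  unfold Alt
  rw [btw_iff h2 h4, btw_iff h3 h5, btw_iff h1 h4.symm, btw_iff h3 h6, btw_iff h1 h5.symm,
    btw_iff h2 h6.symm, lt_flip h4, lt_flip h5, lt_flip h6]
  rcases lt_or_gt_of_ne h1 with a1 | a1 <;> rcases lt_or_gt_of_ne h2 with a2 | a2 <;>
  rcases lt_or_gt_of_ne h3 with a3 | a3 <;> rcases lt_or_gt_of_ne h4 with a4 | a4 <;>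
  rcases lt_or_gt_of_ne h5 with a5 | a5 <;> rcases lt_or_gt_of_ne h6 with a6 | a6 <;>
  first
  | (exfalso; order)
  | simp [a1, a2, a3, a4, a5, a6, not_lt.2 a1.le, not_lt.2 a2.le, not_lt.2 a3.le,
      not_lt.2 a4.le, not_lt.2 a5.le, not_lt.2 a6.le]

/-- all forms of the three pairings -/
theorem alt_all {p q z k : α} (h1 : p ≠ q) (h2 : p ≠ z) (h3 : p ≠ k) (h4 : q ≠ z) (h5 : q ≠ k)
    (h6 : z ≠ k) : ∃ A B C : Prop,
    ((A ∧ ¬ B ∧ ¬ C) ∨ (¬ A ∧ B ∧ ¬ C) ∨ (¬ A ∧ ¬ B ∧ C)) ∧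
    (Alt p q z k ↔ A) ∧
    (Alt p q k z ↔ A) ∧
    (Alt q p z k ↔ A) ∧
    (Alt q p k z ↔ A) ∧
    (Alt z k p q ↔ A) ∧
    (Alt z k q p ↔ A) ∧
    (Alt k z p q ↔ A) ∧
    (Alt k z q p ↔ A) ∧
    (Alt p z q k ↔ B) ∧
    (Alt p z k q ↔ B) ∧
    (Alt z p q k ↔ B) ∧
    (Alt z p k q ↔ B) ∧
    (Alt q k p z ↔ B) ∧
    (Alt q k z p ↔ B) ∧
    (Alt k q p z ↔ B) ∧
    (Alt k q z p ↔ B) ∧
    (Alt p k q z ↔ C) ∧
    (Alt p k z q ↔ C) ∧
    (Alt k p q z ↔ C) ∧
    (Alt k p z q ↔ C) ∧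
    (Alt q z p k ↔ C) ∧
    (Alt q z k p ↔ C) ∧
    (Alt z q p k ↔ C) ∧
    (Alt z q k p ↔ C) := by
  refine ⟨Alt p q z k, Alt p z q k, Alt p k q z, ?_, ?_⟩
  · exact alt3 h1 h2 h3 h4 h5 h6
  · have a1 := alt_swap (a := p) (b := q) (c := z) (d := k) h2 h3 h4 h5
    have a2 := alt_swap (a := p) (b := z) (c := q) (d := k) h1 h3 h4.symm h6
    have a3 := alt_swap (a := p) (b := k) (c := q) (d := z) h1 h2 h5.symm h6.symm
    have c1 : ∀ a b c d : α, Alt a b c d ↔ Alt b a c d := fun a b c d => alt_comm1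
    have c2 : ∀ a b c d : α, Alt a b c d ↔ Alt a b d c := fun a b c d => alt_comm2
    have c3 : ∀ a b c d : α, Alt a b c d ↔ Alt b a d c := fun a b c d => (c1 a b c d).trans (c2 b a c d)
    refine ⟨Iff.rfl, (c2 p q k z), (c1 q p z k), (c3 q p k z), a1.symm, (c2 z k q p).trans a1.symm, (c1 k z p q).trans a1.symm, (c3 k z q p).trans a1.symm, Iff.rfl, (c2 p z k q), (c1 z p q k), (c3 z p k q), a2.symm, (c2 q k z p).trans a2.symm, (c1 k q p z).trans a2.symm, (c3 k q z p).trans a2.symm, Iff.rfl, (c2 p k z q), (c1 k p q z), (c3 k p z q), a3.symm, (c2 q z k p).trans a3.symm, (c1 z q p k).trans a3.symm, (c3 z q k p).trans a3.symm⟩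

/-- all other hubs are on the same side of `{v, w}` -/
def Con (H : Finset α) (v w : α) : Prop :=
  ∀ h ∈ H, ∀ q ∈ H, h ≠ v → h ≠ w → q ≠ v → q ≠ w → ¬ Alt v w h q

theorem inv1 {H V : Finset α} {p z : α} (hVH : V ⊆ H)
    (hp : ReflTransGen (fun v w => v ∈ V ∧ w ∈ V ∧ v ≠ w ∧ Con H v w) p z) {h q : α}
    (hh : h ∈ H) (hq : q ∈ H) (hhV : h ∉ V) (hqV : q ∉ V) : ¬ Alt h q p z := by
  induction hp with
  | refl => exact not_alt_self
  | tail _ h1 ih =>
    rename_i v w _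
    have a1 : h ≠ v := fun e => hhV (e ▸ h1.1)
    have a2 : h ≠ w := fun e => hhV (e ▸ h1.2.1)
    have a3 : q ≠ v := fun e => hqV (e ▸ h1.1)
    have a4 : q ≠ w := fun e => hqV (e ▸ h1.2.1)
    have h2 := h1.2.2.2 h hh q hq a1 a2 a3 a4
    exact alt_trans1 ih (fun h3 => h2 ((alt_swap a1 a2 a3 a4).1 h3))

theorem inv2 {H V : Finset α} {p q z : α} (hVH : V ⊆ H) {E : α → α → Prop}
    (hp : ReflTransGen (fun v w => v ∈ V ∧ w ∈ V ∧ v ≠ w ∧ Con H v w ∧ E v w) p z)
    (hpH : p ∈ H) (hzH : z ∈ H) (hq : q ∈ H) (hqV : q ∉ V) (hqp : q ≠ p) (hqz : q ≠ z)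
    (hpz : p ≠ z) (hc : Con H p z) (hE : ¬ E p z) : False := by
  have key : z = p ∨ (z ≠ z ∧ Alt p q z z) := by
    have : ∀ w, ReflTransGen (fun v w => v ∈ V ∧ w ∈ V ∧ v ≠ w ∧ Con H v w ∧ E v w) p w →
        w = p ∨ (w ≠ z ∧ Alt p q w z) := by
      intro w hw
      induction hw with
      | refl => exact Or.inl rfl
      | tail _ h1 ih =>
        rename_i v w _
        obtain ⟨hv, hw, hvw, hcon, hEvw⟩ := h1
        have qv : q ≠ v := fun e => hqV (e ▸ hv)
        have qw : q ≠ w := fun e => hqV (e ▸ hw)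
        by_cases hwp : w = p
        · exact Or.inl hwp
        right
        by_cases hwz : w = z
        · exfalso
          subst hwz
          rcases ih with rfl | ⟨h2, h3⟩
          · exact hE hEvw
          · have vp : v ≠ p := by
              rintro rfl
              exact hE hEvw
            have h4 := hcon p hpH q hq vp.symm hpz qv qw
            exact h4 ((alt_swap vp.symm hpz qv qw).1 h3)
        refine ⟨hwz, ?_⟩
        by_contra h4
        rcases ih with rfl | ⟨h2, h3⟩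
        · have h5 := hcon q hq z hzH qv qw hpz.symm (Ne.symm hwz)
          have h6 := hc w (hVH hw) q hq hwp hwz hqp hqz
          rcases alt3 (a := v) (b := q) (c := w) (d := z) qv.symm hvw hpz qw hqz hwz with
            h7 | h7 | h7
          · exact h4 h7.1
          · exact h5 h7.2.1
          · exact h6 (alt_comm2.1 h7.2.2)
        · by_cases vp : v = p
          · subst vp
            have h5 := hcon q hq z hzH qv qw hpz.symm (Ne.symm hwz)
            have h6 := hc w (hVH hw) q hq hwp hwz hqp hqz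
            rcases alt3 (a := v) (b := q) (c := w) (d := z) qv.symm hvw hpz qw hqz hwz with
              h7 | h7 | h7
            · exact h4 h7.1
            · exact h5 h7.2.1
            · exact h6 (alt_comm2.1 h7.2.2)
          · have h5 : Alt p q v w := by
              by_contra h6
              exact h4 (alt_comm2.1 (alt_trans2 (alt_comm2.1 h3) h6))
            have h7 := hcon p hpH q hq (Ne.symm vp) (Ne.symm hwp) qv qw
            exact h7 ((alt_swap (Ne.symm vp) (Ne.symm hwp) qv qw).1 h5)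
    exact this z hp
  rcases key with h1 | h1
  · exact hpz h1.symm
  · exact h1.1 rfl

end H97B
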