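import Pool.Agent.Lib.H97B.B2

/-! # H97B, one-sided diagonals of a face -/

open Finset Relation

set_option linter.unusedSectionVars false
set_option linter.unusedVariables false

namespace H97B

variable {α : Type} [LinearOrder α] [Fintype α] {cr : α → α → α → Prop} {bef : α → α → α → α → Prop}

/-- the two properties of the hub set of a face -/
structure FH (cr : α → α → α → Prop) (H : Finset α) : Prop where
  con : ∀ v w, G cr H v w → Con H v w
  rf : ∀ p ∈ H, ∀ q ∈ H, p ≠ q → (∀ s ∈ H, ¬ cr p q s) → H38P.RF cr p q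

/-- (*) the first hub on `pq` from `p` is a neighbour of `p` -/
theorem Ray.star (h : Ray cr bef) {H : Finset α} (hH : FH cr H) {p q z : α} (hp : p ∈ H)
    (hq : q ∈ H) (hz : z ∈ H) (hc : cr p q z) (hg : ∀ w ∈ H, Good cr bef p q z w) :
    Con H p z ∧ H38P.RF cr p z := by
  have hqV : q ∉ VV cr H p z := h.notin_VV hc
  have hVH : VV cr H p z ⊆ H := by
    intro w hw
    rcases mem_VV.1 hw with rfl | rfl | h1
    · exact hp
    · exact hz
    · exact h1.1
  have hzp : z ≠ p := h.nez hc
  have hzq : z ≠ q := h.nez' hc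
  have hpq : p ≠ q := h.nxy hc
  have hpath := h.connV H hp hq hz hc hg
  have hpath1 : ReflTransGen (fun v w => v ∈ VV cr H p z ∧ w ∈ VV cr H p z ∧ v ≠ w ∧ Con H v w ∧
      G cr H v w) p z := by
    refine rtg_mono ?_ hpath
    intro a b hab
    exact ⟨hab.1, hab.2.1, hab.2.2.2.2.1, hH.con a b hab.2.2, hab.2.2⟩
  have hpath2 : ReflTransGen (fun v w => v ∈ VV cr H p z ∧ w ∈ VV cr H p z ∧ v ≠ w ∧ Con H v w)
      p z := by
    refine rtg_mono ?_ hpath1
    intro a b hab
    exact ⟨hab.1, hab.2.1, hab.2.2.1, hab.2.2.2.1⟩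
  have side : ∀ k ∈ H, k ≠ p → k ≠ z → ¬ Alt p z k q := by
    intro k hk hkp hkz
    by_cases hkV : k ∈ VV cr H p z
    · rcases mem_VV.1 hkV with e | e | h1
      · exact absurd e hkp
      · exact absurd e hkz
      · have hkq : k ≠ q := fun e => hqV (e ▸ hkV)
        exact h.sector hc h1.2 (hg k hk) hkq
    · by_cases hkq : k = q
      · subst hkq
        exact not_alt_self
      · have h1 := inv1 hVH hpath2 hk hq hkV hqV
        intro h2
        exact h1 ((alt_swap hkp.symm hpq hkz.symm hzq).1 h2)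
  have hcon : Con H p z := by
    intro k hk l hl h1 h2 h3 h4
    exact alt_trans1 (side k hk h1 h2) (fun h5 => side l hl h3 h4 (alt_comm2.1 h5))
  refine ⟨hcon, hH.rf p hp z hz hzp.symm ?_⟩
  by_contra h1
  push Not at h1
  obtain ⟨s, hs, hcs⟩ := h1
  exact inv2 (E := G cr H) hVH hpath1 hp hz hq hqV hpq.symm hzq.symm hzp.symm hcon
    (fun h2 => h2.2.2.2 s hs hcs)

open Classical in
/-- CLAIM O(p, q) -/
theorem Ray.claimO (h : Ray cr bef) {H : Finset α} (hH : FH cr H) : ∀ (n : ℕ) {p q z : α},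
    p ∈ H → q ∈ H → z ∈ H → cr p q z → (∀ w ∈ H, Good cr bef p q z w) →
    (H.filter (fun k => k ≠ p ∧ k ≠ q ∧ ¬ Alt p q k z)).card ≤ n →
    (∀ k ∈ H, k ≠ p → k ≠ q → ¬ Alt p q k z → cr p q k) ∧
    (∀ y, y ≠ p → y ≠ q → Alt p q y z → ¬ cr p q y) := by
  intro n
  induction n with
  | zero =>
    intro p q z hp hq hz hc hg hcard
    exfalso
    have h1 : z ∈ H.filter (fun k => k ≠ p ∧ k ≠ q ∧ ¬ Alt p q k z) := by
      rw [mem_filter]
      exact ⟨hz, h.nez hc, h.nez' hc, not_alt_self⟩
    have h2 := Finset.card_pos.2 ⟨z, h1⟩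
    omega
  | succ n ih =>
    intro p q z hp hq hz hc hg hcard
    obtain ⟨hcon, hrf⟩ := h.star hH hp hq hz hc hg
    have hzp : z ≠ p := h.nez hc
    have hzq : z ≠ q := h.nez' hc
    have hpq : p ≠ q := h.nxy hc
    have hnp : ¬ cr z q p := h.k4 hc
    by_cases hA : ∀ s ∈ H, ¬ cr z q s
    · have hrf2 := hH.rf z hz q hq hzq hA
      have hcon2 : Con H z q := hH.con z q ⟨hz, hq, hzq, hA⟩
      refine ⟨?_, ?_⟩
      · intro k hk hkp hkq hkz
        by_cases e : k = z
        · subst e
          exact hc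
        exfalso
        have h1 := hcon k hk q hq hkp e hpq.symm hzq.symm
        have h2 := hcon2 k hk p hp e hkq hzp.symm hpq
        obtain ⟨A, B, C, hx, e⟩ := alt_all (p := p) (q := q) (z := z) (k := k) hpq hzp.symm
          (Ne.symm hkp) hzq.symm (Ne.symm hkq) (Ne.symm e)
        simp only [e] at hkz h1 h2
        tauto
      · intro y hyp hyq hy h1
        rcases h.one1 (alt_comm2.1 hy) hyp hyq hc h1 with h2 | h2
        · exact hrf y h2
        · exact hrf2 y h2
    · push Not at hA
      obtain ⟨z2, hz2, hc2, hg2⟩ := h.exists_first hA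
      obtain ⟨hcon2, hrf2⟩ := h.star hH hz hq hz2 hc2 hg2
      have z2p : z2 ≠ p := fun e => hnp (e ▸ hc2)
      have z2z : z2 ≠ z := h.nez hc2
      have z2q : z2 ≠ q := h.nez' hc2
      have hsep : Alt z q z2 p := by
        have h1 := hcon2 p hp q hq hzp.symm z2p.symm hzq.symm z2q.symm
        have h2 := hcon z2 hz2 q hq z2p z2z hpq.symm hzq.symm
        obtain ⟨A, B, C, hx, e⟩ := alt_all (p := p) (q := q) (z := z) (k := z2) hpq hzp.symm
          z2p.symm hzq.symm z2q.symm z2z.symm
        simp only [e] at h1 h2 ⊢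
        tauto
      have hsub : H.filter (fun k => k ≠ z ∧ k ≠ q ∧ ¬ Alt z q k z2) ⊂
          H.filter (fun k => k ≠ p ∧ k ≠ q ∧ ¬ Alt p q k z) := by
        rw [Finset.ssubset_iff_of_subset]
        · refine ⟨z, ?_, ?_⟩
          · rw [mem_filter]
            exact ⟨hz, hzp, hzq, not_alt_self⟩
          · rw [mem_filter]
            exact fun h1 => h1.2.1 rfl
        · intro k hk
          rw [mem_filter] at hk ⊢
          obtain ⟨hk1, hkz, hkq, hk2⟩ := hk
          have hkp : k ≠ p := by
            rintro rfl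
            exact hk2 (alt_comm2.1 hsep)
          refine ⟨hk1, hkp, hkq, fun h1 => ?_⟩
          have h2 : Alt z q k p := by
            by_contra h3
            exact hk2 (alt_comm2.1 (alt_trans2 hsep (fun h4 => h3 (alt_comm2.1 h4))))
          obtain ⟨A, B, C, hx, e⟩ := alt_all (p := p) (q := q) (z := z) (k := k) hpq hzp.symm
            (Ne.symm hkp) hzq.symm (Ne.symm hkq) (Ne.symm hkz)
          simp only [e] at h1 h2
          tauto
      obtain ⟨hB1, hB2⟩ := ih hz hq hz2 hc2 hg2 (by
        have := Finset.card_lt_card hsub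
        omega)
      refine ⟨?_, ?_⟩
      · intro k hk hkp hkq hkz
        by_cases e : k = z
        · subst e
          exact hc
        have h1 := hcon k hk q hq hkp e hpq.symm hzq.symm
        have h2 : Alt z q k p ∧ Alt p k z q := by
          obtain ⟨A, B, C, hx, e⟩ := alt_all (p := p) (q := q) (z := z) (k := k) hpq hzp.symm
            (Ne.symm hkp) hzq.symm (Ne.symm hkq) (Ne.symm e)
          simp only [e] at h1 hkz ⊢
          tauto
        have h3 : ¬ Alt z q k z2 := alt_trans3 h2.1 (alt_comm2.1 hsep)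
        have h4 := hB1 k hk e hkq h3
        exact h.one2 h2.2 hkp hkq e hc (hrf k) h4
      · intro y hyp hyq hy h1
        rcases h.one1 (alt_comm2.1 hy) hyp hyq hc h1 with h2 | h2
        · exact hrf y h2
        · have hyz : y ≠ z := by
            rintro rfl
            exact not_alt_self hy
          have h3 : ¬ Alt z q p y := by
            obtain ⟨A, B, C, hx, e⟩ := alt_all (p := p) (q := q) (z := z) (k := y) hpq hzp.symm
              (Ne.symm hyp) hzq.symm (Ne.symm hyq) (Ne.symm hyz)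
            simp only [e] at hy ⊢
            tauto
          exact hB2 y hyz hyq (alt_comm2.1 (alt_trans2 hsep h3)) h2

/-- all pairs of hubs are one-sided -/
theorem Ray.oneS (h : Ray cr bef) {H : Finset α} (hH : FH cr H) {p q : α} (hp : p ∈ H)
    (hq : q ∈ H) (hpq : p ≠ q) : OneS cr H p q := by
  classical
  have bne : ∀ {k}, Btw p q k → k ≠ p ∧ k ≠ q := by
    intro k hk
    constructor
    · rintro rfl
      rcases hk with h1 | h1
      · exact lt_irrefl _ h1.1
      · exact lt_irrefl _ h1.2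
    · rintro rfl
      rcases hk with h1 | h1
      · exact lt_irrefl _ h1.2
      · exact lt_irrefl _ h1.1
  by_cases hA : ∀ s ∈ H, ¬ cr p q s
  · have hrf := hH.rf p hp q hq hpq hA
    have hcon := hH.con p q ⟨hp, hq, hpq, hA⟩
    by_cases hB : ∃ k ∈ H, Btw p q k
    · obtain ⟨k, hk, hkb⟩ := hB
      right
      refine ⟨?_, fun z _ => hrf z⟩
      intro l hl h1 h2 h3
      exfalso
      have h4 := hcon k hk l hl (bne hkb).1 (bne hkb).2 h1 h2
      exact h4 (fun h5 => h3 (h5.1 hkb))
    · push Not at hB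
      left
      exact ⟨fun k hk hkb => absurd hkb (hB k hk), fun z _ _ _ => hrf z⟩
  · push Not at hA
    obtain ⟨z, hz, hc, hg⟩ := h.exists_first hA
    obtain ⟨h1, h2⟩ := h.claimO hH _ hp hq hz hc hg le_rfl
    by_cases hB : Btw p q z
    · left
      refine ⟨fun k hk hkb => h1 k hk (bne hkb).1 (bne hkb).2 (fun h3 => h3 ⟨fun _ => hB, fun _ => hkb⟩),
        fun y hy1 hy2 hy3 => h2 y hy1 hy2 (fun h3 => hy3 (h3.2 hB))⟩
    · right
      refine ⟨fun k hk h3 h4 h5 => h1 k hk h3 h4 (fun h6 => h6 ⟨fun h7 => absurd h7 h5,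
        fun h7 => absurd h7 hB⟩), fun y hy => h2 y (bne hy).1 (bne hy).2 (fun h3 => hB (h3.1 hy))⟩

end H97B
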